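import Pool.Agent.Y262.NU.Stm

/-!
# Project NU: density of smooth functions on the surface (job SMD)
-/

set_option autoImplicit false

open Set Filter Topology MeasureTheory
open scoped ContDiff ComplexConjugate Real

noncomputable section

namespace Pool.Agent.Y914.NU

open Pool.Agent.Y262.QE Pool.Agent.Y262.EG Pool.Agent.Y262.EX Pool.Agent.Y262.NU

/-- the function which is given by `β` on the ball -/
def ff {M : Type} (pr : ℂ → M) (B : Set ℂ) (β : ℂ → ℝ) (x : M) : ℝ := by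
  classical
  exact if h : ∃ z, z ∈ B ∧ pr z = x then β h.choose else 0

section

variable {M : Type} {pr : ℂ → M} {B : Set ℂ} {β : ℂ → ℝ}

lemma ff_val (hin : InjOn pr B) {z : ℂ} (hz : z ∈ B) : ff pr B β (pr z) = β z := by
  have h : ∃ w, w ∈ B ∧ pr w = pr z := ⟨z, hz, rfl⟩
  unfold ff
  rw [dif_pos h]
  rw [hin h.choose_spec.1 hz h.choose_spec.2]

lemma ff_off {x : M} (h : ¬ ∃ z, z ∈ B ∧ pr z = x) : ff pr B β x = 0 := by
  unfold ff
  rw [dif_neg h]

lemma ff_cases (hin : InjOn pr B) {x : M} (hx : ff pr B β x ≠ 0) :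
    ∃ z ∈ B, pr z = x ∧ β z ≠ 0 := by
  by_cases h : ∃ z, z ∈ B ∧ pr z = x
  · obtain ⟨z, hz, rfl⟩ := h
    rw [ff_val hin hz] at hx
    exact ⟨z, hz, rfl, hx⟩
  · exact absurd (ff_off h) hx

end

/-- continuity on the surface follows from continuity on the domain -/
lemma cont_of {M P : Type} [MetricSpace M] [MetricSpace P] {Ω : Set ℂ} {φ : ℂ → ℝ} {pr : ℂ → M}
    {q : Y → P} (hU : IsUT Ω φ pr q) {F : M → ℝ} (h : ContinuousOn (fun z => F (pr z)) Ω) :
    Continuous F := by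
  rw [continuous_def]
  intro V hV
  have h3 : F ⁻¹' V = pr '' (Ω ∩ (fun z => F (pr z)) ⁻¹' V) := by
    ext x
    constructor
    · intro hx
      have hx' : x ∈ pr '' Ω := by rw [hU.surjp]; trivial
      obtain ⟨z, hz, rfl⟩ := hx'
      exact ⟨z, ⟨hz, hx⟩, rfl⟩
    · rintro ⟨z, ⟨-, hz⟩, rfl⟩
      exact hz
  rw [h3]
  exact hU.opnp _ (h.isOpen_inter_preimage hU.opn hV) inter_subset_left

/-- smooth functions separate points -/
lemma sep {M P : Type} [MetricSpace M] [CompactSpace M] [MetricSpace P] {Ω : Set ℂ} {φ : ℂ → ℝ}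
    {pr : ℂ → M} {q : Y → P} (hU : IsUT Ω φ pr q) {x y : M} (hxy : x ≠ y) :
    ∃ F : M → ℝ, Continuous F ∧ ContDiffOn ℝ ∞ (fun z => F (pr z)) Ω ∧ F x ≠ F y := by
  have hx' : x ∈ pr '' Ω := by rw [hU.surjp]; trivial
  obtain ⟨z, hz, rfl⟩ := hx'
  obtain ⟨r, hr, hrb, hinj⟩ := hU.injp z hz
  have hcz : ContinuousAt pr z := (hU.contp z hz).continuousAt (hU.opn.mem_nhds hz)
  have hev : ∀ᶠ w in 𝓝 z, pr w ≠ y := hcz.eventually_ne hxy
  obtain ⟨s, hs, hsb⟩ := Metric.eventually_nhds_iff_ball.1 hev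
  obtain ⟨t, ht0, htr, hts⟩ : ∃ t : ℝ, 0 < t ∧ t ≤ r ∧ t ≤ s :=
    ⟨min r s, lt_min hr hs, min_le_left _ _, min_le_right _ _⟩
  have hBr : Metric.ball z t ⊆ Metric.ball z r := Metric.ball_subset_ball htr
  have hBΩ : Metric.ball z t ⊆ Ω := hBr.trans hrb
  have hin : InjOn pr (Metric.ball z t) := hinj.mono hBr
  let b : ContDiffBump z := ⟨t / 3, t / 2, by linarith, by linarith⟩
  have hb0 : ∀ w : ℂ, b w ≠ 0 → w ∈ Metric.closedBall z (t / 2) := by
    intro w hw
    by_contra hcon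
    rw [Metric.mem_closedBall, not_le] at hcon
    exact hw (b.zero_of_le_dist hcon.le)
  have hbc : b z = 1 := b.one_of_mem_closedBall (Metric.mem_closedBall_self b.rIn_pos.le)
  have hKB : Metric.closedBall z (t / 2) ⊆ Metric.ball z t :=
    Metric.closedBall_subset_ball (by linarith)
  have hKc : IsClosed (pr '' Metric.closedBall z (t / 2)) :=
    ((isCompact_closedBall z (t / 2)).image_of_continuousOn
      (hU.contp.mono (hKB.trans hBΩ))).isClosed
  have hK : ∀ x, ff pr (Metric.ball z t) b x ≠ 0 → x ∈ pr '' Metric.closedBall z (t / 2) := by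
    intro x hx
    obtain ⟨w, _, rfl, hbw⟩ := ff_cases hin hx
    exact ⟨w, hb0 w hbw, rfl⟩
  have hsm : ∀ w ∈ Ω, ContDiffAt ℝ ∞ (fun w => ff pr (Metric.ball z t) b (pr w)) w := by
    intro w0 hw0
    by_cases hzK : pr w0 ∈ pr '' Metric.closedBall z (t / 2)
    · obtain ⟨w, hw, hwz⟩ := hzK
      have hwS := hKB hw
      obtain ⟨θ', r1, γ, hr1, hb, hd, hγ, hp, -⟩ := hU.deck w0 hw0 w (hBΩ hwS) hwz.symm 0
      have hnb : Metric.ball w0 r1 ∈ 𝓝 w0 := Metric.ball_mem_nhds w0 hr1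
      have hcd : ContDiffAt ℝ ∞ γ w0 :=
        ((hd.contDiffOn Metric.isOpen_ball).contDiffAt hnb : ContDiffAt ℂ ∞ γ w0).restrict_scalars ℝ
      have hev : (fun w => ff pr (Metric.ball z t) b (pr w)) =ᶠ[𝓝 w0] fun ζ => b (γ ζ) := by
        have h3 : ∀ᶠ ζ in 𝓝 w0, γ ζ ∈ Metric.ball z t := by
          apply hcd.continuousAt
          have : γ w0 = w := hγ
          rw [this]
          exact Metric.isOpen_ball.mem_nhds hwS
        filter_upwards [h3, hnb] with ζ hζ hζb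
        rw [← (hp ζ hζb).2.1, ff_val hin hζ]
      refine ContDiffAt.congr_of_eventuallyEq ?_ hev
      exact (b.contDiff.contDiffAt (n := ∞)).comp w0 hcd
    · have hev : (fun w => ff pr (Metric.ball z t) b (pr w)) =ᶠ[𝓝 w0] fun _ => 0 := by
        have h3 : ∀ᶠ ζ in 𝓝 w0, pr ζ ∈ (pr '' Metric.closedBall z (t / 2))ᶜ := by
          have h5 := (hU.contp w0 hw0).continuousAt (hU.opn.mem_nhds hw0)
          exact h5 (hKc.isOpen_compl.mem_nhds hzK)
        filter_upwards [h3] with ζ hζ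
        by_contra hcon
        exact hζ (hK _ hcon)
      exact contDiffAt_const.congr_of_eventuallyEq hev
  have hcO : ContinuousOn (fun w => ff pr (Metric.ball z t) b (pr w)) Ω := fun w hw =>
    (hsm w hw).continuousAt.continuousWithinAt
  refine ⟨ff pr (Metric.ball z t) b, cont_of hU hcO, fun w hw => (hsm w hw).contDiffWithinAt, ?_⟩
  have h1 : ff pr (Metric.ball z t) b (pr z) = 1 := by
    rw [ff_val hin (Metric.mem_ball_self ht0), hbc]
  have h2 : ff pr (Metric.ball z t) b y = 0 := by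
    by_contra hcon
    obtain ⟨w, hw, hwy, -⟩ := ff_cases hin hcon
    exact hsb w (Metric.ball_subset_ball hts hw) hwy
  rw [h1, h2]
  exact one_ne_zero

/-- the subalgebra of the smooth functions -/
def smA {M : Type} [TopologicalSpace M] (Ω : Set ℂ) (pr : ℂ → M) : Subalgebra ℝ C(M, ℝ) where
  carrier := {F | ContDiffOn ℝ ∞ (fun z => F (pr z)) Ω}
  mul_mem' := by
    intro F G hF hG
    exact ContDiffOn.mul (𝕜 := ℝ) hF hG
  add_mem' := by
    intro F G hF hG
    exact ContDiffOn.add (𝕜 := ℝ) hF hG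
  algebraMap_mem' := by
    intro c
    exact contDiffOn_const

/-- **job SMD** -/
theorem smd : StSmd := by
  intro M P _ _ _ _ Ω φ pr q hU f hf ε hε
  have hsep : (smA Ω pr).SeparatesPoints := by
    intro x y hxy
    obtain ⟨F, h1, h2, h3⟩ := sep hU hxy
    exact ⟨F, ⟨⟨F, h1⟩, h2, rfl⟩, h3⟩
  obtain ⟨g, hg⟩ := ContinuousMap.exists_mem_subalgebra_near_continuous_of_separatesPoints
    (smA Ω pr) hsep f hf ε hε
  exact ⟨fun x => (g : C(M, ℝ)) x, (g : C(M, ℝ)).continuous, g.2, fun x => hg x⟩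

end Pool.Agent.Y914.NU
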